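import Pool.Agent.H4.Rado

set_option autoImplicit false

namespace Pool.Agent.Results.MP_008109_al.OneOrbit

/-- Adjacency in the Cayley graph of the group `X` with respect to `S`. -/
def Adj {X : Type} [Group X] (S : Set X) (x y : X) : Prop := x * y⁻¹ ∈ S

/-- The subset `S` of the countable group `X` is special: it does not contain `1`, it is closed
under inversion, and the Cayley graph (adjacency: `x * y⁻¹ ∈ S`) has property (*) and so is
isomorphic to the random graph: for all finite disjoint sets `U`, `V` of vertices there is a vertex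
adjacent to every vertex in `U` and to no vertex in `V`. -/
def Special {X : Type} [Group X] (S : Set X) : Prop :=
  Countable X ∧ (1 : X) ∉ S ∧ (∀ x ∈ S, x⁻¹ ∈ S) ∧
    ∀ U V : Finset X, Disjoint U V → ∃ z, (∀ u ∈ U, Adj S z u) ∧ (∀ v ∈ V, ¬ Adj S z v)

/-- Property (†): `X` is not the union of finitely many sets
`T(x, y) = {z | x * z⁻¹ = z * y⁻¹}` with `x ≠ y` and finitely many points. -/
def Dagger (X : Type) [Group X] : Prop :=
  ∀ (P : Finset (X × X)) (W : Finset X), (∀ p ∈ P, p.1 ≠ p.2) →
    ∃ z : X, (∀ p ∈ P, p.1 * z⁻¹ ≠ z * p.2⁻¹) ∧ z ∉ W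

/-- Two subsets of `X` are in the same orbit of the automorphism group of `X`. -/
def SameOrbit {X : Type} [Group X] (S T : Set X) : Prop := ∃ α : X ≃* X, α '' S = T

open Pool.Agent.H4.Rado in
/-- There is a countable group with property (†) and with continuum many automorphisms, whose
automorphism group has exactly one orbit on special subsets. -/
theorem result : ∃ (X : Type) (_ : Group X), Countable X ∧ Dagger X ∧
    Cardinal.mk (X ≃* X) = Cardinal.continuum ∧ (∃ S : Set X, Special S) ∧
    ∀ S T : Set X, Special S → Special T → SameOrbit S T := by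
  classical
  have hconv : ∀ S : Set (Multiplicative A), Special S →
      (0 : A) ∉ (Multiplicative.ofAdd ⁻¹' S) ∧ Star (Multiplicative.ofAdd ⁻¹' S) := by
    intro S hS
    refine ⟨hS.2.1, fun U V hUV => ?_⟩
    obtain ⟨z, h1, h2⟩ := hS.2.2.2 (U.map Multiplicative.ofAdd.toEmbedding)
      (V.map Multiplicative.ofAdd.toEmbedding) ((Finset.disjoint_map _).2 hUV)
    refine ⟨Multiplicative.toAdd z, fun u hu => ?_, fun v hv => ?_⟩
    · have h3 := h1 (Multiplicative.ofAdd u) (by simpa using hu)
      unfold Adj at h3
      have h4 : z * (Multiplicative.ofAdd u)⁻¹ =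
          Multiplicative.ofAdd (Multiplicative.toAdd z + u) := by
        rw [← ofAdd_neg, neg_eq, ofAdd_add, ofAdd_toAdd]
      rw [h4] at h3
      exact h3
    · have h3 := h2 (Multiplicative.ofAdd v) (by simpa using hv)
      unfold Adj at h3
      have h4 : z * (Multiplicative.ofAdd v)⁻¹ =
          Multiplicative.ofAdd (Multiplicative.toAdd z + v) := by
        rw [← ofAdd_neg, neg_eq, ofAdd_add, ofAdd_toAdd]
      rw [h4] at h3
      exact h3
  refine ⟨Multiplicative A, inferInstance, (inferInstanceAs (Countable A)), ?_, ?_, ?_, ?_⟩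
  · intro P W hP
    obtain ⟨z, hz⟩ := Infinite.exists_notMem_finset (α := Multiplicative A) W
    refine ⟨z, fun p hp h => hP p hp ?_, hz⟩
    have h1 : Multiplicative.toAdd p.1 - Multiplicative.toAdd z =
        Multiplicative.toAdd z - Multiplicative.toAdd p.2 := by
      have := congrArg Multiplicative.toAdd h
      simpa [sub_eq_add_neg] using this
    have h2 : Multiplicative.toAdd p.1 = Multiplicative.toAdd p.2 := by
      have h3 : Multiplicative.toAdd p.1 =
          (Multiplicative.toAdd z + Multiplicative.toAdd z) - Multiplicative.toAdd p.2 := by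
        rw [sub_eq_iff_eq_add] at h1
        rw [h1]; abel
      rw [h3, Pool.Agent.H4.Rado.add_self, zero_sub, neg_eq]
    exact Multiplicative.toAdd.injective h2
  · rw [← card_aut]
    exact Cardinal.mk_congr (AddEquiv.toMultiplicative (G := A) (H := A)).symm
  · obtain ⟨S, hS0, hS⟩ := exists_special
    refine ⟨Multiplicative.toAdd ⁻¹' S, (inferInstanceAs (Countable A)), hS0, ?_, ?_⟩
    · intro x hx
      show Multiplicative.toAdd x⁻¹ ∈ S
      rw [toAdd_inv, neg_eq]
      exact hx
    · intro U V hUV
      obtain ⟨z, h1, h2⟩ := hS (U.map Multiplicative.toAdd.toEmbedding)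
        (V.map Multiplicative.toAdd.toEmbedding) ((Finset.disjoint_map _).2 hUV)
      refine ⟨Multiplicative.ofAdd z, fun u hu => ?_, fun v hv => ?_⟩
      · have h3 := h1 (Multiplicative.toAdd u) (by simpa using hu)
        show Multiplicative.toAdd (Multiplicative.ofAdd z * u⁻¹) ∈ S
        rw [toAdd_mul, toAdd_inv, neg_eq, toAdd_ofAdd]
        exact h3
      · have h3 := h2 (Multiplicative.toAdd v) (by simpa using hv)
        show Multiplicative.toAdd (Multiplicative.ofAdd z * v⁻¹) ∉ S
        rw [toAdd_mul, toAdd_inv, neg_eq, toAdd_ofAdd]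
        exact h3
  · intro S T hS hT
    obtain ⟨α, hα⟩ := exists_aut _ _ (hconv S hS).1 (hconv T hT).1 (hconv S hS).2 (hconv T hT).2
    refine ⟨AddEquiv.toMultiplicative α, ?_⟩
    ext y
    constructor
    · rintro ⟨x, hx, rfl⟩
      exact (hα (Multiplicative.toAdd x)).1 hx
    · intro hy
      refine ⟨Multiplicative.ofAdd (α.symm (Multiplicative.toAdd y)), ?_, ?_⟩
      · have := (hα (α.symm (Multiplicative.toAdd y))).2 (by
          rw [AddEquiv.apply_symm_apply]; exact hy)
        exact this
      · show Multiplicative.ofAdd (α (α.symm (Multiplicative.toAdd y))) = y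
        rw [AddEquiv.apply_symm_apply]; rfl

end Pool.Agent.Results.MP_008109_al.OneOrbit
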